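import Pool.Agent.H895R2.SY.All

/-!
# No monotone V_j-preserving symmetrization: all subspaces H, 2 <= j <= n - 1
-/

namespace Pool.Agent.Results.MP_b62b68_gt.NoSymmetrizationFull

open Module
open Pool.Agent.Results.MP_b62b68_gt.NoSymmetrization (E compactConvex nonemptyCompactConvex
  convexBodies GoodSymmetrization)

/-- **Full answer.** For every subspace `H ≠ ℝⁿ` and every `2 ≤ j ≤ n - 1` there is no monotonic
`V j`-preserving symmetrization that is invariant on `H`-symmetric sets. -/
theorem result (n i j : ℕ) (hi : i < n) (hj : 2 ≤ j) (hjn : j < n) (H : Submodule ℝ (E n))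
    (hH : finrank ℝ H = i) (𝓑 : Set (Set (E n)))
    (h𝓑 : 𝓑 = compactConvex n ∨ 𝓑 = nonemptyCompactConvex n ∨ 𝓑 = convexBodies n) :
    ¬ ∃ D : Set (E n) → Set (E n), GoodSymmetrization 𝓑 H j D :=
  Pool.Agent.H895R2.SY.all_result n i j hi hj hjn H hH 𝓑 h𝓑

end Pool.Agent.Results.MP_b62b68_gt.NoSymmetrizationFull
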